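import Mathlib
import Pool.Agent.Q175.MixFree
import Pool.Agent.Q175.MixNot

/-!
# A free topological group `F(X)` that is a `k_R`-space while no `F_n(X)`, `n ≥ 1`, is

`X` is the union of two disjoint, mutually dense subspaces `X₀`, `X₁` of a Cantor cube such that
for every compact `Q ⊆ X` both `Q ∩ X₀` and `Q ∩ X₁` are compact; hence `X` is not a `k_R`-space.
There are sequences `x_m ∈ X₀`, `y_m ∈ X₁` with a common limit outside of `X`, so that
`x_m y_m⁻¹ → e` in `F(X)`; this glues the two parts together and makes `F(X)` a `k_R`-space.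
-/

set_option autoImplicit false

namespace Pool.Agent.Results.MP_547adb_gt.WordsNotKR

open Set Topology Filter

/-- `Y` is a `k_R`-space: every real function on `Y` whose restrictions to compact sets are
continuous is continuous. -/
def IsKR (Y : Type) [TopologicalSpace Y] : Prop :=
  ∀ f : Y → ℝ, (∀ K : Set Y, IsCompact K → ContinuousOn f K) → Continuous f

/-- The given topology makes the free group on the set `X` the free topological group (in the sense
of Markov) of the space `X`. -/
structure IsMarkovFree (X : Type) [TopologicalSpace X] [TopologicalSpace (FreeGroup X)] :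
    Prop where
  isTopologicalGroup : IsTopologicalGroup (FreeGroup X)
  isEmbedding : IsEmbedding (FreeGroup.of : X → FreeGroup X)
  exists_extension : ∀ (G : Type) [Group G] [TopologicalSpace G] [IsTopologicalGroup G]
    (f : X → G), Continuous f →
    ∃! φ : FreeGroup X →* G, Continuous φ ∧ ∀ x, φ (FreeGroup.of x) = f x

/-- `F_n(X)`: the elements represented by words of length at most `n`. -/
def words (X : Type) (n : ℕ) : Set (FreeGroup X) :=
  {w | ∃ L : List (X × Bool), L.length ≤ n ∧ FreeGroup.mk L = w}

theorem result : ∃ (X : Type) (_ : TopologicalSpace X) (_ : TopologicalSpace (FreeGroup X)),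
    T35Space X ∧ T35Space (FreeGroup X) ∧ IsMarkovFree X ∧ IsKR (FreeGroup X) ∧
    ∀ n ≥ 1, ¬ IsKR (words X n) := by
  let Γ : Type := (Cardinal.aleph 2).out
  have hΓ : Cardinal.aleph 1 < Cardinal.mk Γ := by
    rw [Cardinal.mk_out]
    exact Cardinal.aleph_lt_aleph.2 (by norm_num)
  have := Q175.MixCube.uncountable_of hΓ
  let tT : TopologicalSpace (FreeGroup (Q175.MixCube.X Γ)) :=
    (sInf {t : GroupTopology (FreeGroup (Q175.MixCube.X Γ)) |
      @Continuous _ _ inferInstance t.toTopologicalSpace FreeGroup.of}).toTopologicalSpace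
  let tK : TopologicalSpace (FreeGroup (Q175.MixCube.A Γ → Bool)) :=
    (sInf {t : GroupTopology (FreeGroup (Q175.MixCube.A Γ → Bool)) |
      @Continuous _ _ inferInstance t.toTopologicalSpace FreeGroup.of}).toTopologicalSpace
  have hT : Q177.FreeTop.IsFreeTop (Q175.MixCube.X Γ) := Q177.FreeTop.isFreeTop_sInf _
  have hK : Q177.FreeTop.IsFreeTop (Q175.MixCube.A Γ → Bool) := Q177.FreeTop.isFreeTop_sInf _
  have := hT.grp
  have := hK.grp
  have : T2Space (FreeGroup (Q175.MixCube.A Γ → Bool)) :=
    Q175.FreeKO.t2_of_sep hK Q175.FreeKRSub.exists_sep_cube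
  have hι : Continuous (FreeGroup.map (Subtype.val : Q175.MixCube.X Γ →
      Q175.MixCube.A Γ → Bool)) :=
    Q175.FreeKO.continuous_map hT hK.cont continuous_subtype_val
  have hinj : Function.Injective
      (FreeGroup.map (Subtype.val : Q175.MixCube.X Γ → Q175.MixCube.A Γ → Bool)) :=
    FreeGroup.map_injective Subtype.val_injective
  have hT2 : T2Space (FreeGroup (Q175.MixCube.X Γ)) := T2Space.of_injective_continuous hinj hι
  have hcr : CompletelyRegularSpace (FreeGroup (Q175.MixCube.X Γ)) :=
    CompletelyRegularSpace.of_exists_uniformSpace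
      ⟨IsTopologicalGroup.rightUniformSpace (FreeGroup (Q175.MixCube.X Γ)), rfl⟩
  have hofK : IsEmbedding (FreeGroup.of : (Q175.MixCube.A Γ → Bool) →
      FreeGroup (Q175.MixCube.A Γ → Bool)) :=
    (hK.cont.isClosedEmbedding FreeGroup.of_injective).isEmbedding
  have hofT : IsEmbedding (FreeGroup.of : Q175.MixCube.X Γ →
      FreeGroup (Q175.MixCube.X Γ)) := by
    refine IsEmbedding.of_comp hT.cont hι ?_
    have : FreeGroup.map (Subtype.val : Q175.MixCube.X Γ → Q175.MixCube.A Γ → Bool) ∘
        FreeGroup.of = FreeGroup.of ∘ Subtype.val := by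
      funext x
      simp
    rw [this]
    exact hofK.comp IsEmbedding.subtypeVal
  refine ⟨Q175.MixCube.X Γ, inferInstance, tT, inferInstance, {}, ⟨hT.grp, hofT, ?_⟩,
    Q175.MixCube.kR_mix hT hK, fun n hn => Q175.MixCube.not_kR_Fn hΓ hT hK hn⟩
  intro G _ _ _ f hf
  refine ⟨FreeGroup.lift f, ⟨hT.continuous_lift f hf, fun x => by simp⟩, ?_⟩
  rintro φ ⟨-, hφ⟩
  ext x
  rw [hφ x]
  simp

end Pool.Agent.Results.MP_547adb_gt.WordsNotKR
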